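import Mathlib

/-!
# Commuting real matrix tuples with every non-zero vector hypercyclic (MP_336050_an)

For `n ≥ 3` there is no tuple of pairwise commuting real `n × n` matrices for which every non-zero
vector of `ℝ^n` is hypercyclic.  A commuting family has a common complex eigenvector `a + i b`, and
the real span of `a` and `b` is a non-zero invariant subspace of dimension at most two, so it is a
proper closed invariant subspace when `n ≥ 3`.
-/

namespace Pool.Agent.Results.MP_336050_an.NoMinimalTuple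

open Module

/-- The orbit `{A_1^{k_1} A_2^{k_2} ⋯ A_m^{k_m} x : k_1, …, k_m ∈ {0,1,2,…}}` of a vector `x` under
the tuple `A = (A_1, …, A_m)` of real `n × n` matrices. -/
def Orb {m n : ℕ} (A : Fin m → Matrix (Fin n) (Fin n) ℝ) (x : Fin n → ℝ) : Set (Fin n → ℝ) :=
  {y | ∃ k : Fin m → ℕ, y = ((List.ofFn fun i => A i ^ k i).prod).mulVec x}

/-- A commuting family of endomorphisms of a non-zero finite-dimensional complex vector space has a
common eigenvector. -/
theorem exists_common_eigenvector {ι : Type*} (d : ℕ) :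
    ∀ (V : Type) [AddCommGroup V] [Module ℂ V] [FiniteDimensional ℂ V] [Nontrivial V]
      (f : ι → End ℂ V), (∀ i j, Commute (f i) (f j)) → finrank ℂ V = d →
      ∃ v : V, v ≠ 0 ∧ ∃ μ : ι → ℂ, ∀ i, f i v = μ i • v := by
  induction d using Nat.strongRecOn with
  | ind d ih =>
    intro V _ _ _ _ f hf hd
    by_cases hs : ∀ i, ∃ μ : ℂ, (f i).eigenspace μ = ⊤
    · choose μ hμ using hs
      obtain ⟨v, hv⟩ := exists_ne (0 : V)
      refine ⟨v, hv, μ, fun i => ?_⟩
      have : v ∈ (f i).eigenspace (μ i) := by rw [hμ i]; trivial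
      exact End.mem_eigenspace_iff.mp this
    · push Not at hs
      obtain ⟨i, hi⟩ := hs
      obtain ⟨μ, hμ⟩ := End.exists_eigenvalue (f i)
      have hinv : ∀ j, ∀ v ∈ (f i).eigenspace μ, f j v ∈ (f i).eigenspace μ := by
        intro j v hv
        rw [End.mem_eigenspace_iff] at hv ⊢
        have h1 : f i (f j v) = f j (f i v) := by
          have := congrArg (fun g : End ℂ V => g v) (hf i j).eq
          simpa using this
        rw [h1, hv, map_smul]
      have hlt : finrank ℂ ((f i).eigenspace μ) < d := by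
        rw [← hd]
        exact Submodule.finrank_lt (hi μ)
      have hnt : Nontrivial ((f i).eigenspace μ) := by
        obtain ⟨v, hv⟩ := hμ.exists_hasEigenvector
        exact ⟨⟨⟨v, hv.1⟩, 0, fun h => hv.2 (congrArg Subtype.val h)⟩⟩
      obtain ⟨v, hv0, ν, hν⟩ := ih _ hlt ((f i).eigenspace μ)
        (fun j => (f j).restrict (hinv j))
        (fun j k => by
          refine LinearMap.ext fun v => Subtype.ext ?_
          have := congrArg (fun g : End ℂ V => g (v : V)) (hf j k).eq
          simpa using this) rfl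
      refine ⟨v, fun h => hv0 (Subtype.ext h), ν, fun j => ?_⟩
      have := congrArg Subtype.val (hν j)
      simpa using this

/-- For every `n ≥ 3` and every tuple of pairwise commuting real `n × n` matrices there is a
non-zero vector of `ℝ^n` whose orbit is not dense. -/
theorem result (n m : ℕ) (hn : 3 ≤ n) (A : Fin m → Matrix (Fin n) (Fin n) ℝ)
    (hA : ∀ i j, A i * A j = A j * A i) :
    ∃ x : Fin n → ℝ, x ≠ 0 ∧ ¬ Dense (Orb A x) := by
  classical
  -- complexify
  have hne : Nonempty (Fin n) := ⟨⟨0, by omega⟩⟩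
  let AC : Fin m → Matrix (Fin n) (Fin n) ℂ := fun i => (A i).map (algebraMap ℝ ℂ)
  have hcomm : ∀ i j, AC i * AC j = AC j * AC i := by
    intro i j
    show (A i).map (algebraMap ℝ ℂ) * (A j).map (algebraMap ℝ ℂ) =
      (A j).map (algebraMap ℝ ℂ) * (A i).map (algebraMap ℝ ℂ)
    rw [← Matrix.map_mul, ← Matrix.map_mul, hA i j]
  obtain ⟨v, hv0, μ, hμ⟩ := exists_common_eigenvector (ι := Fin m) _ (Fin n → ℂ)
    (fun i => (Matrix.toLin' (AC i) : (Fin n → ℂ) →ₗ[ℂ] (Fin n → ℂ)))
    (fun i j => by
      show Matrix.toLin' (AC i) ∘ₗ Matrix.toLin' (AC j) = Matrix.toLin' (AC j) ∘ₗ Matrix.toLin' (AC i)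
      rw [← Matrix.toLin'_mul, ← Matrix.toLin'_mul, hcomm]) rfl
  have hμ' : ∀ i, (AC i).mulVec v = μ i • v := by
    intro i
    have := hμ i
    rwa [Matrix.toLin'_apply] at this
  -- real and imaginary parts
  let a : Fin n → ℝ := fun j => (v j).re
  let b : Fin n → ℝ := fun j => (v j).im
  have hre : ∀ i, (A i).mulVec a = (μ i).re • a - (μ i).im • b := by
    intro i
    funext j
    have := congrArg (fun w : Fin n → ℂ => (w j).re) (hμ' i)
    simpa [Matrix.mulVec, dotProduct, AC, a, b] using this
  have him : ∀ i, (A i).mulVec b = (μ i).re • b + (μ i).im • a := by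
    intro i
    funext j
    have := congrArg (fun w : Fin n → ℂ => (w j).im) (hμ' i)
    simpa [Matrix.mulVec, dotProduct, AC, a, b] using this
  let W : Submodule ℝ (Fin n → ℝ) := Submodule.span ℝ {a, b}
  have haW : a ∈ W := Submodule.subset_span (by simp)
  have hbW : b ∈ W := Submodule.subset_span (by simp)
  have hWinv : ∀ i, ∀ w ∈ W, (A i).mulVec w ∈ W := by
    intro i w hw
    obtain ⟨s, t, rfl⟩ := Submodule.mem_span_pair.mp hw
    rw [Matrix.mulVec_add, Matrix.mulVec_smul, Matrix.mulVec_smul, hre, him]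
    exact W.add_mem (W.smul_mem _ (W.sub_mem (W.smul_mem _ haW) (W.smul_mem _ hbW)))
      (W.smul_mem _ (W.add_mem (W.smul_mem _ hbW) (W.smul_mem _ haW)))
  have hWpow : ∀ i (k : ℕ), ∀ w ∈ W, (A i ^ k).mulVec w ∈ W := by
    intro i k
    induction k with
    | zero => intro w hw; simpa using hw
    | succ k ih =>
      intro w hw
      rw [pow_succ, ← Matrix.mulVec_mulVec]
      exact ih _ (hWinv i w hw)
  have hWlist : ∀ l : List (Matrix (Fin n) (Fin n) ℝ),
      (∀ M ∈ l, ∀ w ∈ W, M.mulVec w ∈ W) → ∀ w ∈ W, l.prod.mulVec w ∈ W := by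
    intro l
    induction l with
    | nil => intro _ w hw; simpa using hw
    | cons M l ih =>
      intro hl w hw
      rw [List.prod_cons, ← Matrix.mulVec_mulVec]
      exact hl M (by simp) _ (ih (fun N hN => hl N (by simp [hN])) w hw)
  have hWorb : ∀ x ∈ W, Orb A x ⊆ (W : Set (Fin n → ℝ)) := by
    rintro x hx y ⟨k, rfl⟩
    refine hWlist _ ?_ x hx
    intro M hM
    rw [List.mem_ofFn] at hM
    obtain ⟨i, rfl⟩ := hM
    exact hWpow i (k i)
  -- `W` is a proper subspace
  have hWtop : W ≠ ⊤ := by
    intro h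
    have h1 : finrank ℝ W ≤ 2 := by
      have := finrank_span_finset_le_card (R := ℝ) ({a, b} : Finset (Fin n → ℝ))
      have h2 : (({a, b} : Finset (Fin n → ℝ)) : Set (Fin n → ℝ)) = {a, b} := by simp
      rw [h2] at this
      exact this.trans Finset.card_le_two
    rw [h, finrank_top, Module.finrank_fin_fun] at h1
    omega
  have hWclosed : IsClosed (W : Set (Fin n → ℝ)) := W.closed_of_finiteDimensional
  -- a non-zero vector in `W`
  have hx : ∃ x ∈ W, x ≠ 0 := by
    by_contra hcon
    push Not at hcon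
    apply hv0
    funext j
    have h1 := congrFun (hcon a haW) j
    have h2 := congrFun (hcon b hbW) j
    exact Complex.ext (by simpa [a] using h1) (by simpa [b] using h2)
  obtain ⟨x, hxW, hx0⟩ := hx
  refine ⟨x, hx0, fun hd => hWtop ?_⟩
  rw [eq_top_iff]
  intro y _
  have h1 : closure (Orb A x) ⊆ (W : Set (Fin n → ℝ)) :=
    closure_minimal (hWorb x hxW) hWclosed
  exact h1 (hd y)

end Pool.Agent.Results.MP_336050_an.NoMinimalTuple
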